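import Pool.Agent.Helper76.FT.GoalsC
import Pool.Agent.Helper32.FT.Newton1

/-! Packet 1820 (FT-TOPHI): from a torus to a solution of the Hamilton-Jacobi equation. -/

set_option autoImplicit false

namespace Pool.Agent.Helper86.FTToPhi

open Complex Set Filter Topology MeasureTheory
open Pool.Agent.Helper76.FT
open Pool.Agent.Helper32.FTNewton (isOpen_str add_one_mem sh_dz diffAt)

/-- differentiation under the integral sign -/
theorem param {U : Set ℂ} (hU : IsOpen U) {F F' : ℂ → ℝ → ℂ}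
    (hc : ContinuousOn (fun q : ℂ × ℝ => F q.1 q.2) (U ×ˢ univ))
    (hc' : ContinuousOn (fun q : ℂ × ℝ => F' q.1 q.2) (U ×ˢ univ))
    (hd : ∀ z ∈ U, ∀ s : ℝ, HasDerivAt (fun z' => F z' s) (F' z s) z) {z : ℂ} (hz : z ∈ U)
    (a b : ℝ) :
    HasDerivAt (fun z' => ∫ s in a..b, F z' s) (∫ s in a..b, F' z s) z := by
  obtain ⟨ε, hε, hball⟩ := Metric.isOpen_iff.1 hU z hz
  have hsub : Metric.closedBall z (ε / 2) ⊆ U :=
    (Metric.closedBall_subset_ball (by linarith)).trans hball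
  have hcomp : IsCompact (Metric.closedBall z (ε / 2) ×ˢ uIcc a b) :=
    (isCompact_closedBall z (ε / 2)).prod isCompact_uIcc
  have hcc : ContinuousOn (fun q : ℂ × ℝ => F' q.1 q.2) (Metric.closedBall z (ε / 2) ×ˢ uIcc a b) :=
    hc'.mono (prod_mono hsub (subset_univ _))
  obtain ⟨C, hC⟩ := hcomp.exists_bound_of_continuousOn hcc
  have hslice : ∀ w ∈ U, Continuous (F w) := by
    intro w hw
    have : Continuous (fun s : ℝ => (w, s)) := by fun_prop
    exact hc.comp_continuous this (fun s => ⟨hw, mem_univ _⟩)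
  have hslice' : ∀ w ∈ U, Continuous (F' w) := by
    intro w hw
    have : Continuous (fun s : ℝ => (w, s)) := by fun_prop
    exact hc'.comp_continuous this (fun s => ⟨hw, mem_univ _⟩)
  refine (intervalIntegral.hasDerivAt_integral_of_dominated_loc_of_deriv_le
    (s := Metric.closedBall z (ε / 2)) (bound := fun _ => C)
    (Metric.closedBall_mem_nhds z (by linarith)) ?_ ?_ ?_ ?_ ?_ ?_).2
  · filter_upwards [hU.mem_nhds hz] with w hw
    exact (hslice w hw).aestronglyMeasurable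
  · exact (hslice z hz).intervalIntegrable _ _
  · exact (hslice' z hz).aestronglyMeasurable
  · refine Eventually.of_forall fun t ht w hw => ?_
    exact hC (w, t) ⟨hw, uIoc_subset_uIcc ht⟩
  · exact intervalIntegrable_const
  · exact Eventually.of_forall fun t _ w hw => hd w (hsub hw) t

/-- projection to `[0, 1]` -/
noncomputable def pr (s : ℝ) : ℝ := (projIcc (0:ℝ) 1 zero_le_one s : ℝ)

theorem pr_mem (s : ℝ) : pr s ∈ Icc (0:ℝ) 1 := (projIcc (0:ℝ) 1 zero_le_one s).2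

theorem pr_of_mem {s : ℝ} (hs : s ∈ Icc (0:ℝ) 1) : pr s = s := by
  unfold pr
  rw [projIcc_of_mem zero_le_one hs]

theorem continuous_pr : Continuous pr := continuous_subtype_val.comp continuous_projIcc

theorem cont_pr {f : ℂ → ℝ → ℂ} {ρ : ℝ} (h : SH f ρ) :
    ContinuousOn (fun q : ℂ × ℝ => f q.1 (pr q.2)) (Str ρ ×ˢ univ) := by
  have h1 : ContinuousOn (fun q : ℂ × ℝ => (q.1, pr q.2)) (Str ρ ×ˢ univ) :=
    (continuous_fst.prodMk (continuous_pr.comp continuous_snd)).continuousOn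
  exact h.cont.comp h1 (fun q hq => ⟨hq.1, pr_mem _⟩)

theorem hasDerivAt_dz {f : ℂ → ℝ → ℂ} {ρ : ℝ} (h : SH f ρ) {z : ℂ} (hz : z ∈ Str ρ) {t : ℝ}
    (ht : t ∈ Icc (0:ℝ) 1) : HasDerivAt (fun z' => f z' t) (dz f z t) z :=
  (diffAt h hz ht).hasDerivAt

/-- the primitive in time -/
theorem hasDerivAt_int {f : ℂ → ℝ → ℂ} {ρ : ℝ} (h : SH f ρ) {z : ℂ} (hz : z ∈ Str ρ) (a b : ℝ) :
    HasDerivAt (fun z' => ∫ s in a..b, f z' (pr s)) (∫ s in a..b, dz f z (pr s)) z :=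
  param (isOpen_str ρ) (cont_pr h) (cont_pr (sh_dz h))
    (fun _ hw s => hasDerivAt_dz h hw (pr_mem s)) hz a b

theorem cont_int {f : ℂ → ℝ → ℂ} {ρ : ℝ} (h : SH f ρ) :
    ContinuousOn (fun q : ℂ × ℝ => ∫ s in (0:ℝ)..q.2, f q.1 (pr s)) (Str ρ ×ˢ univ) := by
  rw [continuousOn_iff_continuous_domRestrict]
  have h1 : Continuous (fun x : (Str ρ ×ˢ (univ : Set ℝ) : Set (ℂ × ℝ)) =>
      ∫ s in (0:ℝ)..x.1.2, (fun (x : (Str ρ ×ˢ (univ : Set ℝ) : Set (ℂ × ℝ))) (s : ℝ) =>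
        f x.1.1 (pr s)) x s) := by
    apply intervalIntegral.continuous_parametric_intervalIntegral_of_continuous
    · have h2 : Continuous (fun y : (Str ρ ×ˢ (univ : Set ℝ) : Set (ℂ × ℝ)) × ℝ =>
          ((y.1.1.1, y.2) : ℂ × ℝ)) := by fun_prop
      exact (cont_pr h).comp_continuous h2 (fun y => ⟨y.1.2.1, mem_univ _⟩)
    · fun_prop
  exact h1

theorem convex_str (ρ : ℝ) : Convex ℝ (Str ρ) := by
  have h : Str ρ = Complex.imLm ⁻¹' Ioo (-ρ) ρ := by
    ext z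
    simp [Str, abs_lt]
  rw [h]
  exact (convex_Ioo _ _).linear_preimage _

theorem scale_mem {ρ : ℝ} {z : ℂ} (hz : z ∈ Str ρ) {s : ℝ} (hs : s ∈ Icc (0:ℝ) 1) :
    (s : ℂ) * z ∈ Str ρ := by
  have h1 : |z.im| < ρ := hz
  have h2 : ((s : ℂ) * z).im = s * z.im := by simp
  have h3 : |s * z.im| ≤ |z.im| := by
    rw [abs_mul, abs_of_nonneg hs.1]
    exact mul_le_of_le_one_left (abs_nonneg _) hs.2
  show |((s : ℂ) * z).im| < ρ
  rw [h2]
  exact lt_of_le_of_lt h3 h1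

/-- a primitive on the strip -/
theorem prim {h : ℂ → ℂ} {ρ : ℝ} (hh : DifferentiableOn ℂ h (Str ρ)) {z : ℂ} (hz : z ∈ Str ρ) :
    HasDerivAt (fun z' => ∫ s in (0:ℝ)..1, z' * h ((pr s : ℂ) * z')) (h z) z := by
  have hmap : ∀ q ∈ (Str ρ ×ˢ (univ : Set ℝ)), ((pr q.2 : ℂ) * q.1) ∈ Str ρ :=
    fun q hq => scale_mem hq.1 (pr_mem _)
  have hcm : ContinuousOn (fun q : ℂ × ℝ => (pr q.2 : ℂ) * q.1) (Str ρ ×ˢ univ) := by
    apply Continuous.continuousOn
    exact (Complex.continuous_ofReal.comp (continuous_pr.comp continuous_snd)).mul continuous_fst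
  have hh' : DifferentiableOn ℂ (deriv h) (Str ρ) := hh.deriv (isOpen_str ρ)
  have hdat : ∀ w ∈ Str ρ, HasDerivAt h (deriv h w) w := fun w hw =>
    (hh.differentiableAt ((isOpen_str ρ).mem_nhds hw)).hasDerivAt
  have h1 := param (isOpen_str ρ) (F := fun z' s => z' * h ((pr s : ℂ) * z'))
    (F' := fun z' s => h ((pr s : ℂ) * z') + z' * ((pr s : ℂ) * deriv h ((pr s : ℂ) * z')))
    (continuousOn_fst.mul (hh.continuousOn.comp hcm hmap))
    ((hh.continuousOn.comp hcm hmap).add (continuousOn_fst.mul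
      ((Complex.continuous_ofReal.comp (continuous_pr.comp continuous_snd)).continuousOn.mul
        (hh'.continuousOn.comp hcm hmap)))) (by
    intro w hw s
    have e1 : HasDerivAt (fun z' : ℂ => (pr s : ℂ) * z') (pr s : ℂ) w := by
      simpa using (hasDerivAt_id w).const_mul (pr s : ℂ)
    have e2 : HasDerivAt (fun z' : ℂ => h ((pr s : ℂ) * z'))
        (deriv h ((pr s : ℂ) * w) * (pr s : ℂ)) w :=
      (hdat _ (scale_mem hw (pr_mem s))).comp w e1
    have e3 := HasDerivAt.fun_mul (hasDerivAt_id' w) e2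
    have e5 : h ((pr s : ℂ) * w) + w * ((pr s : ℂ) * deriv h ((pr s : ℂ) * w)) =
        1 * h ((pr s : ℂ) * w) + w * (deriv h ((pr s : ℂ) * w) * (pr s : ℂ)) := by ring
    rw [e5]
    exact e3) hz 0 1
  have h2 : ∫ s in (0:ℝ)..1, (h ((pr s : ℂ) * z) + z * ((pr s : ℂ) * deriv h ((pr s : ℂ) * z))) =
      h z := by
    have e0 : ∫ s in (0:ℝ)..1, (h ((pr s : ℂ) * z) +
        z * ((pr s : ℂ) * deriv h ((pr s : ℂ) * z))) =
        ∫ s in (0:ℝ)..1, (h ((s : ℂ) * z) + z * ((s : ℂ) * deriv h ((s : ℂ) * z))) := by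
      apply intervalIntegral.integral_congr
      intro s hs
      rw [uIcc_of_le zero_le_one] at hs
      simp only [pr_of_mem hs]
    rw [e0]
    have hcs : ContinuousOn (fun s : ℝ => (s : ℂ) * z) (Icc (0:ℝ) 1) := by
      apply Continuous.continuousOn
      fun_prop
    have hms : ∀ s ∈ Icc (0:ℝ) 1, (s : ℂ) * z ∈ Str ρ := fun s hs => scale_mem hz hs
    have e1 : ∀ s ∈ Icc (0:ℝ) 1, HasDerivAt (fun s : ℝ => (s : ℂ) * h ((s : ℂ) * z))
        (h ((s : ℂ) * z) + z * ((s : ℂ) * deriv h ((s : ℂ) * z))) s := by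
      intro s hs
      have f1 : HasDerivAt (fun y : ℂ => y * h (y * z))
          (h ((s : ℂ) * z) + z * ((s : ℂ) * deriv h ((s : ℂ) * z))) (s : ℂ) := by
        have g1 : HasDerivAt (fun y : ℂ => y * z) z (s : ℂ) := by
          simpa using (hasDerivAt_id (s : ℂ)).mul_const z
        have g2 : HasDerivAt (fun y : ℂ => h (y * z)) (deriv h ((s : ℂ) * z) * z) (s : ℂ) :=
          (hdat _ (hms s hs)).comp (s : ℂ) g1
        have g3 := HasDerivAt.fun_mul (hasDerivAt_id' (s : ℂ)) g2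
        have g5 : h ((s : ℂ) * z) + z * ((s : ℂ) * deriv h ((s : ℂ) * z)) =
            1 * h ((s : ℂ) * z) + (s : ℂ) * (deriv h ((s : ℂ) * z) * z) := by ring
        rw [g5]
        exact g3
      exact f1.comp_ofReal
    rw [intervalIntegral.integral_eq_sub_of_hasDerivAt
      (f := fun s : ℝ => (s : ℂ) * h ((s : ℂ) * z))]
    · simp
    · intro s hs
      rw [uIcc_of_le zero_le_one] at hs
      exact e1 s hs
    · apply ContinuousOn.intervalIntegrable
      rw [uIcc_of_le zero_le_one]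
      exact (hh.continuousOn.comp hcs hms).add (continuousOn_const.mul
        (Complex.continuous_ofReal.continuousOn.mul (hh'.continuousOn.comp hcs hms)))
  rw [h2] at h1
  exact h1

theorem int01 {f g : ℝ → ℂ} (h : ∀ s ∈ Icc (0:ℝ) 1, f s = g s) :
    ∫ s in (0:ℝ)..1, f s = ∫ s in (0:ℝ)..1, g s := by
  apply intervalIntegral.integral_congr
  intro s hs
  rw [uIcc_of_le zero_le_one] at hs
  exact h s hs

/-- the abstract construction -/
theorem core {P Q : ℂ → ℝ → ℂ} {ρ : ℝ} (hρ : 0 < ρ) (c : ℂ) (hP : SH P ρ) (hQ : SH Q ρ)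
    (hclose : ∀ z ∈ Str ρ, P z 1 = P z 0)
    (hderP : ∀ z ∈ Str ρ, ∀ t ∈ Icc (0:ℝ) 1,
      HasDerivWithinAt (fun s => P z s) (-dz Q z t) (Icc (0:ℝ) 1) t)
    (hmean : ∫ x in (0:ℝ)..1, P (x : ℂ) 0 = c) :
    ∃ (φ : ℂ → ℝ → ℂ) (e : ℂ), SH φ ρ ∧ (∀ z ∈ Str ρ, φ z 1 = φ z 0) ∧
      (∀ z ∈ Str ρ, ∀ t ∈ Icc (0:ℝ) 1, dz φ z t = P z t - c) ∧
      ∀ z ∈ Str ρ, ∀ t ∈ Icc (0:ℝ) 1,
        HasDerivWithinAt (fun s => φ z s) (e - Q z t) (Icc (0:ℝ) 1) t := by
  have h01 : (0:ℝ) ∈ Icc (0:ℝ) 1 := ⟨le_rfl, zero_le_one⟩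
  have h11 : (1:ℝ) ∈ Icc (0:ℝ) 1 := ⟨zero_le_one, le_rfl⟩
  have h0S : (0:ℂ) ∈ Str ρ := by simpa [Str] using hρ
  have hpre : IsPreconnected (Str ρ) := (convex_str ρ).isPreconnected
  -- the primitive
  obtain ⟨φ0, hφ0d, h00, h01'⟩ : ∃ φ0 : ℂ → ℂ, (∀ z ∈ Str ρ, HasDerivAt φ0 (P z 0 - c) z) ∧
      φ0 0 = 0 ∧ φ0 1 = 0 := by
    refine ⟨fun z => ∫ s in (0:ℝ)..1, z * (P ((pr s : ℂ) * z) 0 - c), fun z hz =>
      prim (h := fun z => P z 0 - c) ((hP.hol 0 h01).sub_const c) hz, by simp, ?_⟩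
    simp only [one_mul, mul_one]
    rw [int01 (g := fun s => P (s : ℂ) 0 - c) (fun s hs => by rw [pr_of_mem hs]),
      intervalIntegral.integral_sub]
    · rw [hmean]
      simp
    · apply Continuous.intervalIntegrable
      have h3 : Continuous (fun x : ℝ => (x : ℂ)) := Complex.continuous_ofReal
      exact (hP.hol 0 h01).continuousOn.comp_continuous h3 (fun x => by simpa [Str] using hρ)
    · exact intervalIntegrable_const
  -- (A)
  have hA : ∀ z ∈ Str ρ, ∀ t ∈ Icc (0:ℝ) 1,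
      ∫ s in (0:ℝ)..t, dz Q z (pr s) = P z 0 - P z t := by
    intro z hz t ht
    have hcP : ContinuousOn (fun s => P z s) (Icc (0:ℝ) 1) := fun s hs =>
      (hderP z hz s hs).continuousWithinAt
    have hcQ : Continuous (fun s => dz Q z (pr s)) := by
      have : Continuous (fun s : ℝ => (z, s)) := by fun_prop
      exact (cont_pr (sh_dz hQ)).comp_continuous this (fun s => ⟨hz, mem_univ _⟩)
    have h1 := intervalIntegral.integral_eq_sub_of_hasDerivAt_of_le (f := fun s => P z s)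
      (f' := fun s => -dz Q z (pr s)) ht.1 (hcP.mono (Icc_subset_Icc le_rfl ht.2)) (by
        intro s hs
        have hs' : s ∈ Ioo (0:ℝ) 1 := ⟨hs.1, lt_of_lt_of_le hs.2 ht.2⟩
        have h2 := (hderP z hz s (Ioo_subset_Icc_self hs')).hasDerivAt (Icc_mem_nhds hs'.1 hs'.2)
        rw [pr_of_mem (Ioo_subset_Icc_self hs')]
        exact h2) (hcQ.neg.intervalIntegrable _ _)
    rw [intervalIntegral.integral_neg] at h1
    have h2 : ∫ s in (0:ℝ)..t, dz Q z (pr s) = -(P z t - P z 0) := by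
      rw [← h1, neg_neg]
    rw [h2]
    ring
  -- integral of Q
  obtain ⟨IQ, hIQ⟩ : ∃ IQ : ℂ → ℝ → ℂ, ∀ z t, IQ z t = ∫ s in (0:ℝ)..t, Q z (pr s) :=
    ⟨fun z t => ∫ s in (0:ℝ)..t, Q z (pr s), fun _ _ => rfl⟩
  have hIQd : ∀ z ∈ Str ρ, ∀ t ∈ Icc (0:ℝ) 1,
      HasDerivAt (fun z' => IQ z' t) (P z 0 - P z t) z := by
    intro z hz t ht
    have h1 := hasDerivAt_int hQ hz 0 t
    rw [hA z hz t ht] at h1
    simp only [hIQ]
    exact h1
  have hIQc : ContinuousOn (fun q : ℂ × ℝ => IQ q.1 q.2) (Str ρ ×ˢ univ) := by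
    simp only [hIQ]
    exact cont_int hQ
  have hIQp : ∀ z ∈ Str ρ, ∀ t : ℝ, IQ (z + 1) t = IQ z t := by
    intro z hz t
    rw [hIQ, hIQ]
    apply intervalIntegral.integral_congr
    intro s _
    exact hQ.per z hz _ (pr_mem s)
  have hIQ1 : ∀ z ∈ Str ρ, IQ z 1 = IQ 0 1 := by
    have hd : ∀ z ∈ Str ρ, HasDerivAt (fun z => IQ z 1) 0 z := by
      intro z hz
      have h1 := hIQd z hz 1 h11
      rw [hclose z hz, sub_self] at h1
      exact h1
    intro z hz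
    exact (isOpen_str ρ).is_const_of_deriv_eq_zero hpre (f := fun z => IQ z 1)
      (fun z hz => (hd z hz).differentiableAt.differentiableWithinAt)
      (fun z hz => (hd z hz).deriv) hz h0S
  have hIQ0 : ∀ z, IQ z 0 = 0 := by
    intro z
    rw [hIQ, intervalIntegral.integral_same]
  have hIQt : ∀ z ∈ Str ρ, ∀ t ∈ Icc (0:ℝ) 1, HasDerivAt (fun t => IQ z t) (Q z t) t := by
    intro z hz t ht
    have hcQ : Continuous (fun s => Q z (pr s)) := by
      have : Continuous (fun s : ℝ => (z, s)) := by fun_prop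
      exact (cont_pr hQ).comp_continuous this (fun s => ⟨hz, mem_univ _⟩)
    have h1 : HasDerivAt (fun t => ∫ s in (0:ℝ)..t, Q z (pr s)) (Q z (pr t)) t :=
      intervalIntegral.integral_hasDerivAt_right (hcQ.intervalIntegrable _ _)
        (hcQ.stronglyMeasurableAtFilter _ _) hcQ.continuousAt
    rw [pr_of_mem ht] at h1
    simp only [hIQ]
    exact h1
  -- periodicity of φ0
  have hφ0p : ∀ z ∈ Str ρ, φ0 (z + 1) = φ0 z := by
    have hd : ∀ z ∈ Str ρ, HasDerivAt (fun z => φ0 (z + 1) - φ0 z) 0 z := by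
      intro z hz
      have h1 := (hφ0d (z + 1) (add_one_mem hz)).comp_add_const z 1
      have h2 := HasDerivAt.fun_sub h1 (hφ0d z hz)
      rw [hP.per z hz 0 h01, sub_self] at h2
      exact h2
    intro z hz
    have h2 := (isOpen_str ρ).is_const_of_deriv_eq_zero hpre (f := fun z => φ0 (z + 1) - φ0 z)
      (fun z hz => (hd z hz).differentiableAt.differentiableWithinAt)
      (fun z hz => (hd z hz).deriv) hz h0S
    simp only [zero_add, h00, h01', sub_zero] at h2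
    exact sub_eq_zero.1 h2
  -- the function
  have hB : ∀ z ∈ Str ρ, ∀ t ∈ Icc (0:ℝ) 1,
      HasDerivAt (fun z' => φ0 z' - IQ z' t + (t : ℂ) * IQ 0 1) (P z t - c) z := by
    intro z hz t ht
    have h1 := (HasDerivAt.fun_sub (hφ0d z hz) (hIQd z hz t ht)).add_const ((t : ℂ) * IQ 0 1)
    have e1 : P z t - c = P z 0 - c - (P z 0 - P z t) := by ring
    rw [e1]
    exact h1
  refine ⟨fun z t => φ0 z - IQ z t + (t : ℂ) * IQ 0 1, IQ 0 1, ⟨?_, ?_, ?_⟩, ?_, ?_, ?_⟩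
  · intro t ht z hz
    exact (hB z hz t ht).differentiableAt.differentiableWithinAt
  · have h1 : ContinuousOn (fun q : ℂ × ℝ => φ0 q.1) (Str ρ ×ˢ Icc (0:ℝ) 1) := by
      have h2 : ContinuousOn φ0 (Str ρ) := fun z hz =>
        (hφ0d z hz).continuousAt.continuousWithinAt
      exact h2.comp continuousOn_fst (fun q hq => hq.1)
    exact (h1.sub (hIQc.mono (prod_mono subset_rfl (subset_univ _)))).add
      ((Complex.continuous_ofReal.comp continuous_snd).continuousOn.mul continuousOn_const)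
  · intro z hz t _
    rw [hφ0p z hz, hIQp z hz t]
  · intro z hz
    simp only
    rw [hIQ1 z hz, hIQ0]
    simp
  · intro z hz t ht
    exact (hB z hz t ht).deriv
  · intro z hz t ht
    have h2 : HasDerivAt (fun t : ℝ => (t : ℂ) * IQ 0 1) (IQ 0 1) t := by
      have h3 : HasDerivAt (fun t : ℝ => (t : ℂ)) 1 t := Complex.ofRealCLM.hasDerivAt
      simpa using h3.mul_const (IQ 0 1)
    have h3 := HasDerivAt.fun_add ((hIQt z hz t ht).const_sub (φ0 z)) h2
    have e1 : IQ 0 1 - Q z t = -Q z t + IQ 0 1 := by ring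
    rw [e1]
    exact h3.hasDerivWithinAt

theorem ft_tophi : GReg → GMom → GTorP → GE → GToPhi := by
  intro _ _ hTP hGE S hS W r₂ r₃ M k₀ hW δ ρ w c hT hnb
  obtain ⟨k0, M', -, -, hGT⟩ := hTP S hS
  obtain ⟨hP, hQ, hclose, hderP, -, hmean, -⟩ := hGT δ ρ w c hT
  obtain ⟨-, -, hE⟩ := hGE S hS W r₂ r₃ M k₀ hW
  obtain ⟨φ, e, h1, h2, h3, h4⟩ := core hT.hρ c hP hQ hclose hderP
    (hmean 0 ⟨le_rfl, zero_le_one⟩)
  have hcφ : ∀ z ∈ Str ρ, ∀ t ∈ Icc (0:ℝ) 1, c + dz φ z t = S.p t z (w z t) := by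
    intro z hz t ht
    rw [h3 z hz t ht]
    ring
  refine ⟨φ, e, ⟨h1, h2, ?_, ?_⟩, ?_⟩
  · intro z hz t ht
    rw [hcφ z hz t ht]
    exact (hW.Wp t ht (z, w z t) (hnb z hz t ht)).1
  · intro z hz t ht
    rw [hcφ z hz t ht]
    have h5 : Ef W t z (S.p t z (w z t)) = S.En t z (w z t) :=
      (hE t ht).2.2 (z, w z t) (hnb z hz t ht)
    rw [h5]
    exact h4 z hz t ht
  · intro z hz t ht
    rw [hcφ z hz t ht]
    exact ⟨rfl, (hW.Wp t ht (z, w z t) (hnb z hz t ht)).2⟩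

end Pool.Agent.Helper86.FTToPhi
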