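import Pool.Agent.Helper76.FT.GoalsA

/-! Packet 1636 (FT-GAL): finite dimensional Galerkin step. -/

set_option autoImplicit false

namespace Pool.Agent.Helper86.FT

open Complex Set MeasureTheory
open Pool.Agent.Helper76.FT

/-- the unit square, coordinates `(t, x)` -/
def K : Set (ℝ × ℝ) := Icc (0:ℝ) 1 ×ˢ Icc (0:ℝ) 1

theorem isCompact_K : IsCompact K := isCompact_Icc.prod isCompact_Icc

theorem measurableSet_K : MeasurableSet K := isCompact_K.measurableSet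

/-- pull back to the square along the line `Im z = s` -/
noncomputable def pl (s : ℝ) (F : ℂ → ℝ → ℂ) (p : ℝ × ℝ) : ℂ := F ((p.2 : ℂ) + s * I) p.1

theorem mem_Str_line {ρ s : ℝ} (hs : |s| < ρ) (x : ℝ) : (x : ℂ) + s * I ∈ Str ρ := by
  simp [Str, hs]

theorem pl_cont {F : ℂ → ℝ → ℂ} {ρ s : ℝ} (hF : SH F ρ) (hs : |s| < ρ) :
    ContinuousOn (pl s F) K := by
  have h : pl s F = (fun q : ℂ × ℝ => F q.1 q.2) ∘ (fun p : ℝ × ℝ => ((p.2 : ℂ) + s * I, p.1)) :=
    rfl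
  rw [h]
  refine hF.cont.comp (Continuous.continuousOn (by fun_prop)) ?_
  intro p hp
  exact ⟨mem_Str_line hs _, hp.1⟩

theorem ee_sh (m n : ℤ) (ρ : ℝ) : SH (ee m n) ρ where
  hol := by
    intro t _
    unfold ee
    fun_prop
  cont := by
    unfold ee
    apply Continuous.continuousOn
    fun_prop
  per := by
    intro z _ t _
    unfold ee
    have : 2 * (Real.pi : ℂ) * I * (m * (z + 1) + n * t) =
        2 * Real.pi * I * (m * z + n * t) + m * (2 * Real.pi * I) := by ring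
    rw [this, Complex.exp_add, Complex.exp_int_mul_two_pi_mul_I, mul_one]

theorem SH.mul {F G : ℂ → ℝ → ℂ} {ρ : ℝ} (hF : SH F ρ) (hG : SH G ρ) :
    SH (fun z t => F z t * G z t) ρ where
  hol := fun t ht => (hF.hol t ht).mul (hG.hol t ht)
  cont := hF.cont.mul hG.cont
  per := fun z hz t ht => by rw [hF.per z hz t ht, hG.per z hz t ht]

theorem SH.sub {F G : ℂ → ℝ → ℂ} {ρ : ℝ} (hF : SH F ρ) (hG : SH G ρ) :
    SH (fun z t => F z t - G z t) ρ where
  hol := fun t ht => (hF.hol t ht).sub (hG.hol t ht)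
  cont := hF.cont.sub hG.cont
  per := fun z hz t ht => by rw [hF.per z hz t ht, hG.per z hz t ht]

theorem SH.constMul {F : ℂ → ℝ → ℂ} {ρ : ℝ} (c : ℂ) (hF : SH F ρ) :
    SH (fun z t => c * F z t) ρ where
  hol := fun t ht => (hF.hol t ht).const_mul c
  cont := continuousOn_const.mul hF.cont
  per := fun z hz t ht => by rw [hF.per z hz t ht]

theorem SH.sum {ι : Type*} (A : Finset ι) (F : ι → ℂ → ℝ → ℂ) {ρ : ℝ}
    (hF : ∀ i ∈ A, SH (F i) ρ) : SH (fun z t => ∑ i ∈ A, F i z t) ρ where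
  hol := fun t ht => by
    have := DifferentiableOn.fun_sum (u := A) (A := fun i z => F i z t) (s := Str ρ) (𝕜 := ℂ)
      (fun i hi => (hF i hi).hol t ht)
    exact this
  cont := continuousOn_finsetSum A fun i hi => (hF i hi).cont
  per := fun z hz t ht => Finset.sum_congr rfl fun i hi => (hF i hi).per z hz t ht

theorem tp_sh (A : Finset (ℤ × ℤ)) (a : ℤ × ℤ → ℂ) (ρ : ℝ) : SH (tp A a) ρ := by
  have := SH.sum A (fun k z t => a k * ee k.1 k.2 z t) (ρ := ρ)
    (fun k _ => SH.constMul (a k) (ee_sh k.1 k.2 ρ))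
  exact this

/-- shift of the contour -/
theorem shift {F : ℂ → ℝ → ℂ} {ρ s : ℝ} (hF : SH F ρ) (hs : |s| < ρ) {t : ℝ}
    (ht : t ∈ Icc (0:ℝ) 1) :
    ∫ x in (0:ℝ)..1, F ((x : ℂ) + s * I) t = ∫ x in (0:ℝ)..1, F (x : ℂ) t := by
  have hρ : 0 < ρ := lt_of_le_of_lt (abs_nonneg s) hs
  have hsub : (uIcc (0:ℝ) 1 ×ℂ uIcc (0:ℝ) s) ⊆ Str ρ := by
    intro z hz
    have h2 : z.im ∈ uIcc (0:ℝ) s := hz.2
    have := Set.abs_sub_left_of_mem_uIcc h2
    simp only [sub_zero] at this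
    exact lt_of_le_of_lt this hs
  have h := Complex.integral_boundary_rect_eq_zero_of_differentiableOn (fun z => F z t)
    0 (1 + s * I) ?_
  swap
  · have e1 : ((1:ℂ) + s * I).re = 1 := by simp
    have e2 : ((1:ℂ) + s * I).im = s := by simp
    rw [e1, e2]
    exact (hF.hol t ht).mono (by simpa using hsub)
  have e1 : ((1:ℂ) + s * I).re = 1 := by simp
  have e2 : ((1:ℂ) + s * I).im = s := by simp
  rw [e1, e2] at h
  simp only [zero_re, zero_im, ofReal_zero, zero_mul, add_zero, ofReal_one, zero_add] at h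
  have hper : ∫ y in (0:ℝ)..s, F (1 + (y : ℂ) * I) t = ∫ y in (0:ℝ)..s, F ((y : ℂ) * I) t := by
    apply intervalIntegral.integral_congr
    intro y hy
    have h1 := Set.abs_sub_left_of_mem_uIcc hy
    simp only [sub_zero] at h1
    have := hF.per ((y : ℂ) * I) (by
      have := mem_Str_line (lt_of_le_of_lt h1 hs) 0
      simpa using this) t ht
    simp only
    rw [← this, add_comm]
  rw [hper] at h
  simp only [smul_eq_mul] at h
  have h3 : (∫ x in (0:ℝ)..1, F (x : ℂ) t) - ∫ x in (0:ℝ)..1, F ((x : ℂ) + s * I) t = 0 := by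
    rw [← h]; ring
  exact (sub_eq_zero.1 h3).symm

theorem setInt_K (f : ℝ × ℝ → ℂ) (hf : ContinuousOn f K) :
    ∫ p in K, f p = ∫ t in (0:ℝ)..1, ∫ x in (0:ℝ)..1, f (t, x) := by
  have h1 : IntegrableOn f (Icc (0:ℝ) 1 ×ˢ Icc (0:ℝ) 1) (volume.prod volume) :=
    hf.integrableOn_compact isCompact_K
  have h2 := setIntegral_prod (μ := volume) (ν := volume) f h1
  unfold K
  rw [Measure.volume_eq_prod, h2, intervalIntegral.integral_of_le zero_le_one,
    integral_Icc_eq_integral_Ioc]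
  refine setIntegral_congr_fun measurableSet_Ioc fun t _ => ?_
  rw [intervalIntegral.integral_of_le zero_le_one]
  exact integral_Icc_eq_integral_Ioc

theorem conj_ee (m n : ℤ) (s x t : ℝ) :
    (starRingEnd ℂ) (ee m n ((x : ℂ) + s * I) t) =
      Complex.exp ((-(4 * Real.pi * m * s) : ℝ)) * ee (-m) (-n) ((x : ℂ) + s * I) t := by
  unfold ee
  rw [← Complex.exp_conj, ← Complex.exp_add]
  congr 1
  simp only [map_mul, map_add, Complex.conj_I, Complex.conj_ofReal, map_intCast, map_ofNat]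
  push_cast
  linear_combination (4 * (Real.pi : ℂ) * m * s) * Complex.I_sq

/-- the coefficient formula on the line `Im z = s` -/
theorem coef {F : ℂ → ℝ → ℂ} {ρ s : ℝ} (hF : SH F ρ) (hs : |s| < ρ) (m n : ℤ) :
    ∫ p in K, pl s F p * (starRingEnd ℂ) (pl s (ee m n) p) =
      Complex.exp ((-(4 * Real.pi * m * s) : ℝ)) * fco F m n := by
  have hG : SH (fun z t => F z t * ee (-m) (-n) z t) ρ := SH.mul hF (ee_sh _ _ _)
  rw [setInt_K]
  swap
  · exact (pl_cont hF hs).mul (Complex.continuous_conj.comp_continuousOn (pl_cont (ee_sh m n ρ) hs))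
  unfold fco
  rw [← intervalIntegral.integral_const_mul]
  apply intervalIntegral.integral_congr
  intro t ht
  rw [uIcc_of_le zero_le_one] at ht
  have h1 := shift hG hs ht
  simp only at h1 ⊢
  rw [← h1, ← intervalIntegral.integral_const_mul]
  apply intervalIntegral.integral_congr
  intro x _
  simp only [pl]
  rw [conj_ee]
  ring

/-! ### the two-line inner product -/

/-- two-line inner product -/
noncomputable def ip (r : ℝ) (F H : ℂ → ℝ → ℂ) : ℂ :=
  (1 / 2) * ((∫ p in K, pl r F p * (starRingEnd ℂ) (pl r H p)) +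
    ∫ p in K, pl (-r) F p * (starRingEnd ℂ) (pl (-r) H p))

theorem ip_ee {F : ℂ → ℝ → ℂ} {ρ r : ℝ} (hF : SH F ρ) (hs : |r| < ρ) (m n : ℤ) :
    ip r F (ee m n) = (Real.cosh (4 * Real.pi * m * r) : ℝ) * fco F m n := by
  unfold ip
  rw [coef hF hs, coef hF (by rwa [abs_neg]), Real.cosh_eq]
  push_cast
  ring_nf

theorem dz_tp (A : Finset (ℤ × ℤ)) (a : ℤ × ℤ → ℂ) (z : ℂ) (t : ℝ) :
    dz (tp A a) z t = tp A (fun k => 2 * Real.pi * I * k.1 * a k) z t := by
  unfold dz tp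
  have h : ∀ k ∈ A, HasDerivAt (fun z' : ℂ => a k * ee k.1 k.2 z' t)
      (2 * Real.pi * I * k.1 * a k * ee k.1 k.2 z t) z := by
    intro k _
    have h0 : HasDerivAt (fun z' : ℂ => 2 * (Real.pi : ℂ) * I * (k.1 * z' + k.2 * t))
        (2 * Real.pi * I * (k.1 * 1)) z :=
      (((hasDerivAt_id z).const_mul (k.1 : ℂ)).add_const _).const_mul _
    have h1 := (h0.cexp).const_mul (a k)
    have h2 : a k * (Complex.exp (2 * (Real.pi : ℂ) * I * (k.1 * z + k.2 * t)) *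
        (2 * Real.pi * I * (k.1 * 1))) = 2 * Real.pi * I * k.1 * a k * ee k.1 k.2 z t := by
      unfold ee; ring
    rw [← h2]
    exact h1
  have := HasDerivAt.fun_sum h
  exact this.deriv

/-- integral of an exponential over a period -/
theorem int_exp (n : ℤ) : ∫ x in (0:ℝ)..1, Complex.exp (2 * Real.pi * I * (n * x)) =
    if n = 0 then 1 else 0 := by
  split_ifs with h
  · subst h; simp
  · have hc : (2 * (Real.pi : ℂ) * I * n) ≠ 0 := by
      simp [Real.pi_ne_zero, h, Complex.I_ne_zero]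
    have h1 := integral_exp_mul_complex (a := 0) (b := 1) hc
    have h2 : ∀ x : ℝ, Complex.exp (2 * Real.pi * I * (n * x)) =
        Complex.exp (2 * Real.pi * I * n * x) := by intro x; ring_nf
    simp only [h2]
    rw [h1]
    have h3 : 2 * (Real.pi : ℂ) * I * n * ((1 : ℝ) : ℂ) = n * (2 * Real.pi * I) := by
      push_cast; ring
    rw [h3, Complex.exp_int_mul_two_pi_mul_I]
    simp

theorem fco_ee (k l : ℤ × ℤ) : fco (ee l.1 l.2) k.1 k.2 = if l = k then 1 else 0 := by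
  unfold fco
  have h : ∀ x t : ℝ, ee l.1 l.2 (x : ℂ) t * ee (-k.1) (-k.2) (x : ℂ) t =
      Complex.exp (2 * Real.pi * I * ((l.1 - k.1 : ℤ) * x)) *
        Complex.exp (2 * Real.pi * I * ((l.2 - k.2 : ℤ) * t)) := by
    intro x t
    unfold ee
    rw [← Complex.exp_add, ← Complex.exp_add]
    congr 1
    push_cast
    ring
  simp only [h, intervalIntegral.integral_mul_const, int_exp, intervalIntegral.integral_const_mul]
  by_cases h1 : l.1 = k.1
  · by_cases h2 : l.2 = k.2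
    · have : l = k := Prod.ext h1 h2
      simp [this]
    · have : l ≠ k := fun h => h2 (by rw [h])
      simp [this, sub_eq_zero, h2]
  · have : l ≠ k := fun h => h1 (by rw [h])
    simp [this, sub_eq_zero, h1]

theorem conj_cont {H : ℂ → ℝ → ℂ} {ρ s : ℝ} (hH : SH H ρ) (hs : |s| < ρ) :
    ContinuousOn (fun p => (starRingEnd ℂ) (pl s H p)) K :=
  Complex.continuous_conj.comp_continuousOn (pl_cont hH hs)

theorem intK {F H : ℂ → ℝ → ℂ} {ρ s : ℝ} (hF : SH F ρ) (hH : SH H ρ) (hs : |s| < ρ) :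
    IntegrableOn (fun p => pl s F p * (starRingEnd ℂ) (pl s H p)) K volume :=
  ((pl_cont hF hs).mul (conj_cont hH hs)).integrableOn_compact isCompact_K

theorem fcoK {F : ℂ → ℝ → ℂ} {ρ : ℝ} (hF : SH F ρ) (hρ : 0 < ρ) (m n : ℤ) :
    fco F m n = ∫ p in K, pl 0 F p * (starRingEnd ℂ) (pl 0 (ee m n) p) := by
  rw [coef hF (by simpa using hρ)]
  simp

theorem fco_sub {F G : ℂ → ℝ → ℂ} {ρ : ℝ} (hF : SH F ρ) (hG : SH G ρ) (hρ : 0 < ρ) (m n : ℤ) :
    fco (fun z t => F z t - G z t) m n = fco F m n - fco G m n := by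
  rw [fcoK (SH.sub hF hG) hρ, fcoK hF hρ, fcoK hG hρ,
    ← integral_sub (intK hF (ee_sh m n ρ) (by simpa using hρ))
      (intK hG (ee_sh m n ρ) (by simpa using hρ))]
  refine setIntegral_congr_fun measurableSet_K fun p _ => ?_
  simp only [pl]
  ring

theorem fco_sum {ι : Type*} (A : Finset ι) (c : ι → ℂ) (F : ι → ℂ → ℝ → ℂ) {ρ : ℝ}
    (hF : ∀ i, SH (F i) ρ) (hρ : 0 < ρ) (m n : ℤ) :
    fco (fun z t => ∑ i ∈ A, c i * F i z t) m n = ∑ i ∈ A, c i * fco (F i) m n := by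
  rw [fcoK (SH.sum A (fun i z t => c i * F i z t) fun i _ => SH.constMul (c i) (hF i)) hρ]
  have h : ∀ i ∈ A, c i * fco (F i) m n =
      ∫ p in K, c i * (pl 0 (F i) p * (starRingEnd ℂ) (pl 0 (ee m n) p)) := by
    intro i _
    rw [fcoK (hF i) hρ, integral_const_mul]
  rw [Finset.sum_congr rfl h, ← integral_finsetSum]
  · refine setIntegral_congr_fun measurableSet_K fun p _ => ?_
    simp only [pl]
    rw [Finset.sum_mul]
    exact Finset.sum_congr rfl fun i _ => by ring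
  · intro i _
    exact (intK (hF i) (ee_sh m n ρ) (by simpa using hρ)).const_mul (c i)

theorem fco_tp (A : Finset (ℤ × ℤ)) (c : ℤ × ℤ → ℂ) (k : ℤ × ℤ) (hk : k ∈ A) :
    fco (tp A c) k.1 k.2 = c k := by
  have h := fco_sum A c (fun l => ee l.1 l.2) (ρ := 1) (fun l => ee_sh _ _ _) one_pos k.1 k.2
  have h' : (fun (z : ℂ) (t : ℝ) => ∑ i ∈ A, c i * ee i.1 i.2 z t) = tp A c := rfl
  rw [h'] at h
  rw [h]
  simp only [fco_ee]
  simp [hk]

theorem ip_tp {F : ℂ → ℝ → ℂ} {ρ r : ℝ} (hF : SH F ρ) (hs : |r| < ρ) (A : Finset (ℤ × ℤ))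
    (c : ℤ × ℤ → ℂ) :
    ip r F (tp A c) = ∑ k ∈ A, (starRingEnd ℂ) (c k) *
      ((Real.cosh (4 * Real.pi * k.1 * r) : ℝ) * fco F k.1 k.2) := by
  have key : ∀ s : ℝ, |s| < ρ → ∫ p in K, pl s F p * (starRingEnd ℂ) (pl s (tp A c) p) =
      ∑ k ∈ A, (starRingEnd ℂ) (c k) *
        ∫ p in K, pl s F p * (starRingEnd ℂ) (pl s (ee k.1 k.2) p) := by
    intro s hs
    have h : ∀ k ∈ A, (starRingEnd ℂ) (c k) *
        ∫ p in K, pl s F p * (starRingEnd ℂ) (pl s (ee k.1 k.2) p) =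
        ∫ p in K, (starRingEnd ℂ) (c k) * (pl s F p * (starRingEnd ℂ) (pl s (ee k.1 k.2) p)) := by
      intro k _
      rw [integral_const_mul]
    rw [Finset.sum_congr rfl h, ← integral_finsetSum]
    · refine setIntegral_congr_fun measurableSet_K fun p _ => ?_
      simp only [pl, tp, map_sum, map_mul]
      rw [Finset.mul_sum]
      exact Finset.sum_congr rfl fun i _ => by ring
    · intro k _
      exact (intK hF (ee_sh k.1 k.2 ρ) hs).const_mul _
  have h : ∀ k ∈ A, (starRingEnd ℂ) (c k) *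
      ((Real.cosh (4 * Real.pi * k.1 * r) : ℝ) * fco F k.1 k.2) =
      (starRingEnd ℂ) (c k) * ip r F (ee k.1 k.2) := by
    intro k _
    rw [ip_ee hF hs]
  rw [Finset.sum_congr rfl h]
  unfold ip
  rw [key r hs, key (-r) (by rwa [abs_neg]), ← Finset.sum_add_distrib, Finset.mul_sum]
  exact Finset.sum_congr rfl fun i _ => by ring

theorem ip_tp_tp (A : Finset (ℤ × ℤ)) (c : ℤ × ℤ → ℂ) (r : ℝ) :
    ip r (tp A c) (tp A c) =
      ((∑ k ∈ A, Real.cosh (4 * Real.pi * k.1 * r) * ‖c k‖ ^ 2 : ℝ) : ℂ) := by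
  rw [ip_tp (tp_sh A c (|r| + 1)) (by linarith) A c]
  push_cast
  refine Finset.sum_congr rfl fun k hk => ?_
  rw [fco_tp A c k hk]
  have := Complex.conj_mul' (c k)
  rw [← this]
  ring

theorem vol_K : (volume : Measure (ℝ × ℝ)).real K = 1 := by
  unfold K
  rw [Measure.real, Measure.volume_eq_prod, Measure.prod_prod]
  simp

/-- pointwise inequality on the lines `Im z = ± r` gives an inequality for `ip` -/
theorem ip_le {ρ r : ℝ} (hs : |r| < ρ) {F₁ H₁ F₂ H₂ : ℂ → ℝ → ℂ} (h1 : SH F₁ ρ) (h2 : SH H₁ ρ)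
    (h3 : SH F₂ ρ) (h4 : SH H₂ ρ) (α β : ℂ) (c : ℝ)
    (h : ∀ z ∈ Str ρ, ∀ t ∈ Icc (0:ℝ) 1,
      (α * (F₁ z t * (starRingEnd ℂ) (H₁ z t))).re ≤
        (β * (F₂ z t * (starRingEnd ℂ) (H₂ z t))).re + c) :
    (α * ip r F₁ H₁).re ≤ (β * ip r F₂ H₂).re + c := by
  have key : ∀ s : ℝ, |s| < ρ →
      (α * ∫ p in K, pl s F₁ p * (starRingEnd ℂ) (pl s H₁ p)).re ≤
      (β * ∫ p in K, pl s F₂ p * (starRingEnd ℂ) (pl s H₂ p)).re + c := by
    intro s hs
    have i1 := (intK h1 h2 hs).const_mul α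
    have i2 := (intK h3 h4 hs).const_mul β
    have i3 : IntegrableOn (fun _ : ℝ × ℝ => c) K volume :=
      continuousOn_const.integrableOn_compact isCompact_K
    rw [← integral_const_mul, ← integral_const_mul]
    have e1 : (∫ p in K, α * (pl s F₁ p * (starRingEnd ℂ) (pl s H₁ p))).re =
        ∫ p in K, (α * (pl s F₁ p * (starRingEnd ℂ) (pl s H₁ p))).re :=
      (integral_re i1).symm
    have e2 : (∫ p in K, β * (pl s F₂ p * (starRingEnd ℂ) (pl s H₂ p))).re =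
        ∫ p in K, (β * (pl s F₂ p * (starRingEnd ℂ) (pl s H₂ p))).re :=
      (integral_re i2).symm
    have e3 : c = ∫ _p in K, c := by
      rw [setIntegral_const, vol_K, one_smul]
    rw [e1, e2]
    conv_rhs => rw [e3]
    have i1r : Integrable (fun p => (α * (pl s F₁ p * (starRingEnd ℂ) (pl s H₁ p))).re)
        (volume.restrict K) := i1.re
    have i2r : Integrable (fun p => (β * (pl s F₂ p * (starRingEnd ℂ) (pl s H₂ p))).re)
        (volume.restrict K) := i2.re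
    rw [← integral_add i2r i3]
    refine setIntegral_mono_on i1r (i2r.add i3) measurableSet_K fun p hp => ?_
    exact h _ (mem_Str_line hs _) _ hp.1
  have k1 := key r hs
  have k2 := key (-r) (by rwa [abs_neg])
  unfold ip
  have e : ∀ (γ x y : ℂ), (γ * (1 / 2 * (x + y))).re = ((γ * x).re + (γ * y).re) / 2 := by
    intro γ x y
    have : γ * (1 / 2 * (x + y)) = ((1 / 2 : ℝ) : ℂ) * (γ * x + γ * y) := by push_cast; ring
    rw [this, Complex.re_ofReal_mul, Complex.add_re]; ring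
  rw [e, e]
  linarith

/-- the energy estimate -/
theorem energy (μ M ρ r τ G : ℝ) (hμ : 0 < μ) (hM : 0 < M) (hr : 0 < r) (hrρ : r < ρ)
    (hG : 0 ≤ G) (w g : ℂ → ℝ → ℂ) (hw : SH w ρ) (hg : SH g ρ)
    (hb : ∀ z ∈ Str ρ, ∀ t ∈ Icc (0:ℝ) 1, μ ≤ (w z t).im ∧ ‖w z t‖ ≤ M ∧ ‖g z t‖ ≤ G)
    (A : Finset (ℤ × ℤ)) (a : ℤ × ℤ → ℂ)
    (ha : ∀ k ∈ A, τ * (2 * Real.pi * I * k.2) * a k
        + fco (fun z t => w z t * dz (tp A a) z t - g z t) k.1 k.2 = 0) :
    ∑ k ∈ A, Real.exp (4 * Real.pi * r * |(k.1 : ℝ)|)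
        * (((k.1 : ℝ))^2 + τ^2 * ((k.2 : ℝ))^2) * ‖a k‖^2 ≤
      ((1 + 2 * M ^ 2) / μ ^ 2 + 2) * G^2 := by
  have hr' : |r| < ρ := by rwa [abs_of_pos hr]
  set b : ℤ × ℤ → ℂ := fun k => 2 * Real.pi * I * k.1 * a k with hbdef
  set c : ℤ × ℤ → ℂ := fun k => τ * (2 * Real.pi * I * k.2) * a k with hcdef
  set h : ℂ → ℝ → ℂ := fun z t => w z t * tp A b z t - g z t with hhdef
  have hP : SH (tp A b) ρ := tp_sh A b ρ
  have hQ : SH (tp A c) ρ := tp_sh A c ρ
  have hh : SH h ρ := SH.sub (SH.mul hw hP) hg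
  have hfun : (fun z t => w z t * dz (tp A a) z t - g z t) = h := by
    funext z t
    rw [dz_tp]
  rw [hfun] at ha
  have hco : ∀ k ∈ A, fco h k.1 k.2 = - c k := by
    intro k hk
    have := ha k hk
    linear_combination this
  -- first identity
  have hP1 : ip r h (tp A b) = ((-∑ k ∈ A, Real.cosh (4 * Real.pi * k.1 * r) *
      (4 * Real.pi ^ 2 * τ * k.1 * k.2 * ‖a k‖ ^ 2) : ℝ) : ℂ) := by
    rw [ip_tp hh hr' A b]
    push_cast
    rw [← Finset.sum_neg_distrib]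
    refine Finset.sum_congr rfl fun k hk => ?_
    rw [hco k hk, ← Complex.conj_mul' (a k)]
    simp only [hbdef, hcdef, map_mul, Complex.conj_I, Complex.conj_ofReal, map_intCast, map_ofNat]
    linear_combination (4 * (Real.pi : ℂ) ^ 2 * τ * k.1 * k.2 * ((starRingEnd ℂ) (a k) * a k) *
      Complex.cosh (4 * Real.pi * k.1 * r)) * Complex.I_sq
  have hQ1 : ip r h (tp A c) = ((-∑ k ∈ A, Real.cosh (4 * Real.pi * k.1 * r) *
      ‖c k‖ ^ 2 : ℝ) : ℂ) := by
    rw [ip_tp hh hr' A c]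
    push_cast
    rw [← Finset.sum_neg_distrib]
    refine Finset.sum_congr rfl fun k hk => ?_
    rw [hco k hk, ← Complex.conj_mul' (c k)]
    ring
  have hPP := ip_tp_tp A b r
  have hQQ := ip_tp_tp A c r
  set SP : ℝ := ∑ k ∈ A, Real.cosh (4 * Real.pi * k.1 * r) * ‖b k‖ ^ 2 with hSP
  set SQ : ℝ := ∑ k ∈ A, Real.cosh (4 * Real.pi * k.1 * r) * ‖c k‖ ^ 2 with hSQ
  -- first inequality
  have hi1 := ip_le hr' hP hP hh hP ((μ / 2 : ℝ) : ℂ) (-I) (G ^ 2 / (2 * μ)) (by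
    intro z hz t ht
    obtain ⟨h1, h2, h3⟩ := hb z hz t ht
    set p := tp A b z t with hp
    have e1 : p * (starRingEnd ℂ) p = ((‖p‖ ^ 2 : ℝ) : ℂ) := by
      rw [Complex.mul_conj']; push_cast; rfl
    have e2 : h z t * (starRingEnd ℂ) p = w z t * ((‖p‖ ^ 2 : ℝ) : ℂ) -
        g z t * (starRingEnd ℂ) p := by
      simp only [hhdef]
      rw [sub_mul, mul_assoc, ← hp, e1]
    rw [e1, e2]
    have e3 : (-I * (w z t * ((‖p‖ ^ 2 : ℝ) : ℂ) - g z t * (starRingEnd ℂ) p)).re =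
        (w z t).im * ‖p‖ ^ 2 - (g z t * (starRingEnd ℂ) p).im := by
      have : -I * (w z t * ((‖p‖ ^ 2 : ℝ) : ℂ) - g z t * (starRingEnd ℂ) p) =
        I * -(w z t * ((‖p‖ ^ 2 : ℝ) : ℂ) - g z t * (starRingEnd ℂ) p) := by ring
      rw [this, Complex.I_mul_re, Complex.neg_im, neg_neg, Complex.sub_im, Complex.im_mul_ofReal]
    rw [e3]
    have e4 : (g z t * (starRingEnd ℂ) p).im ≤ G * ‖p‖ := by
      calc (g z t * (starRingEnd ℂ) p).im ≤ |(g z t * (starRingEnd ℂ) p).im| := le_abs_self _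
        _ ≤ ‖g z t * (starRingEnd ℂ) p‖ := Complex.abs_im_le_norm _
        _ = ‖g z t‖ * ‖p‖ := by rw [norm_mul, RCLike.norm_conj]
        _ ≤ G * ‖p‖ := by gcongr
    have e5 : (((μ / 2 : ℝ) : ℂ) * ((‖p‖ ^ 2 : ℝ) : ℂ)).re = μ / 2 * ‖p‖ ^ 2 := by
      rw [← Complex.ofReal_mul, Complex.ofReal_re]
    rw [e5]
    have e6 : G * ‖p‖ ≤ μ / 2 * ‖p‖ ^ 2 + G ^ 2 / (2 * μ) := by
      have : 0 ≤ (μ * ‖p‖ - G) ^ 2 / (2 * μ) := by positivity
      have e7 : (μ * ‖p‖ - G) ^ 2 / (2 * μ) = μ / 2 * ‖p‖ ^ 2 + G ^ 2 / (2 * μ) - G * ‖p‖ := by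
        field_simp
        ring
      linarith
    have e8 : μ * ‖p‖ ^ 2 ≤ (w z t).im * ‖p‖ ^ 2 := by gcongr
    linarith)
  rw [hPP, hP1, ← Complex.ofReal_mul, Complex.ofReal_re] at hi1
  have e9 : ∀ x : ℝ, (-I * (x : ℂ)).re = 0 := by
    intro x; simp
  rw [e9, zero_add] at hi1
  have hSP1 : SP ≤ G ^ 2 / μ ^ 2 := by
    rw [le_div_iff₀ (by positivity)]
    rw [le_div_iff₀ (by positivity)] at hi1
    nlinarith
  -- second inequality
  have hF : SH (fun z t => tp A c z t - (-2) * h z t) ρ := SH.sub hQ (SH.constMul (-2) hh)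
  have hρ : 0 < ρ := hr.trans hrρ
  have hQ2 : ip r (fun z t => tp A c z t - (-2) * h z t) (tp A c) = ((-SQ : ℝ) : ℂ) := by
    rw [ip_tp hF hr' A c, hSQ]
    push_cast
    rw [← Finset.sum_neg_distrib]
    refine Finset.sum_congr rfl fun k hk => ?_
    have h1 : fco (fun z t => (-2) * h z t) k.1 k.2 = (-2) * fco h k.1 k.2 := by
      have := fco_sum ({()} : Finset Unit) (fun _ => (-2 : ℂ)) (fun _ => h) (fun _ => hh) hρ
        k.1 k.2
      simpa using this
    rw [fco_sub hQ (SH.constMul (-2) hh) hρ, h1, hco k hk, fco_tp A c k hk,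
      ← Complex.conj_mul' (c k)]
    ring
  have hi2 := ip_le hr' hF hQ hP hP (-1) ((2 * M ^ 2 : ℝ) : ℂ) (2 * G ^ 2) (by
    intro z hz t ht
    obtain ⟨h1, h2, h3⟩ := hb z hz t ht
    set p := tp A b z t with hp
    set q := tp A c z t with hq
    have e1 : p * (starRingEnd ℂ) p = ((‖p‖ ^ 2 : ℝ) : ℂ) := by
      rw [Complex.mul_conj']; push_cast; rfl
    have e2 : q * (starRingEnd ℂ) q = ((‖q‖ ^ 2 : ℝ) : ℂ) := by
      rw [Complex.mul_conj']; push_cast; rfl
    have e3 : (-1 : ℂ) * ((q - (-2) * h z t) * (starRingEnd ℂ) q) =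
        -(((‖q‖ ^ 2 : ℝ) : ℂ) + ((2 : ℝ) : ℂ) * (h z t * (starRingEnd ℂ) q)) := by
      rw [← e2]; push_cast; ring
    rw [e3, e1, Complex.neg_re, Complex.add_re, Complex.ofReal_re, Complex.re_ofReal_mul,
      ← Complex.ofReal_mul, Complex.ofReal_re]
    have e4 := Complex.normSq_add (h z t) q
    rw [Complex.normSq_eq_norm_sq, Complex.normSq_eq_norm_sq, Complex.normSq_eq_norm_sq] at e4
    have e5 : ‖h z t‖ ≤ M * ‖p‖ + G := by
      calc ‖h z t‖ ≤ ‖w z t * p‖ + ‖g z t‖ := norm_sub_le _ _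
        _ ≤ M * ‖p‖ + G := by
          rw [norm_mul]
          gcongr
    have e6 : ‖h z t‖ ^ 2 ≤ (M * ‖p‖ + G) ^ 2 := by gcongr
    nlinarith [sq_nonneg (M * ‖p‖ - G), sq_nonneg ‖h z t + q‖])
  rw [hQ2, hPP] at hi2
  have e10 : ((-1 : ℂ) * ((-SQ : ℝ) : ℂ)).re = SQ := by simp
  rw [e10, ← Complex.ofReal_mul, Complex.ofReal_re] at hi2
  -- conclusion
  have hsum : ∑ k ∈ A, Real.exp (4 * Real.pi * r * |(k.1 : ℝ)|)
        * (((k.1 : ℝ))^2 + τ^2 * ((k.2 : ℝ))^2) * ‖a k‖^2 ≤ SP + SQ := by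
    rw [hSP, hSQ, ← Finset.sum_add_distrib]
    refine Finset.sum_le_sum fun k _ => ?_
    have hbn : ‖b k‖ ^ 2 = 4 * Real.pi ^ 2 * (k.1 : ℝ) ^ 2 * ‖a k‖ ^ 2 := by
      simp only [hbdef]
      rw [norm_mul, norm_mul, norm_mul, norm_mul]
      simp only [Complex.norm_I, Complex.norm_real, Complex.norm_intCast, Complex.norm_ofNat,
        Real.norm_eq_abs, mul_one]
      rw [mul_pow, mul_pow, mul_pow, sq_abs, sq_abs]
      ring
    have hcn : ‖c k‖ ^ 2 = 4 * Real.pi ^ 2 * τ ^ 2 * (k.2 : ℝ) ^ 2 * ‖a k‖ ^ 2 := by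
      simp only [hcdef]
      rw [norm_mul, norm_mul, norm_mul, norm_mul, norm_mul]
      simp only [Complex.norm_I, Complex.norm_real, Complex.norm_intCast, Complex.norm_ofNat,
        Real.norm_eq_abs, mul_one]
      rw [mul_pow, mul_pow, mul_pow, mul_pow, sq_abs, sq_abs, sq_abs]
      ring
    rw [hbn, hcn]
    have hexp : Real.exp (4 * Real.pi * r * |(k.1 : ℝ)|) ≤
        2 * Real.cosh (4 * Real.pi * k.1 * r) := by
      have : Real.cosh (4 * Real.pi * k.1 * r) = Real.cosh (4 * Real.pi * r * |(k.1 : ℝ)|) := by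
        rw [← Real.cosh_abs (4 * Real.pi * k.1 * r)]
        congr 1
        rw [abs_mul, abs_mul, abs_of_pos hr, abs_of_pos (by positivity : (0:ℝ) < 4 * Real.pi)]
        ring
      rw [this, Real.cosh_eq]
      have := Real.exp_pos (-(4 * Real.pi * r * |(k.1 : ℝ)|))
      linarith
    have hpi : (1:ℝ) ≤ Real.pi ^ 2 := by
      have := Real.pi_gt_three
      nlinarith
    have hX : 0 ≤ (((k.1 : ℝ))^2 + τ^2 * ((k.2 : ℝ))^2) * ‖a k‖^2 := by positivity
    have hc1 : 0 < Real.cosh (4 * Real.pi * k.1 * r) := Real.cosh_pos _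
    calc Real.exp (4 * Real.pi * r * |(k.1 : ℝ)|)
          * (((k.1 : ℝ))^2 + τ^2 * ((k.2 : ℝ))^2) * ‖a k‖^2
        = Real.exp (4 * Real.pi * r * |(k.1 : ℝ)|) *
          ((((k.1 : ℝ))^2 + τ^2 * ((k.2 : ℝ))^2) * ‖a k‖^2) := by ring
      _ ≤ 2 * Real.cosh (4 * Real.pi * k.1 * r) *
          ((((k.1 : ℝ))^2 + τ^2 * ((k.2 : ℝ))^2) * ‖a k‖^2) := by gcongr
      _ ≤ 4 * Real.pi ^ 2 * Real.cosh (4 * Real.pi * k.1 * r) *
          ((((k.1 : ℝ))^2 + τ^2 * ((k.2 : ℝ))^2) * ‖a k‖^2) := by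
            gcongr
            nlinarith
      _ = _ := by ring
  refine hsum.trans ?_
  have e11 : 2 * M ^ 2 * SP ≤ 2 * M ^ 2 * (G ^ 2 / μ ^ 2) := by gcongr
  have e12 : ((1 + 2 * M ^ 2) / μ ^ 2 + 2) * G^2 =
      G ^ 2 / μ ^ 2 + 2 * M ^ 2 * (G ^ 2 / μ ^ 2) + 2 * G ^ 2 := by
    ring
  rw [e12]
  linarith

theorem ft_gal : GGal := by
  intro μ M hμ hM
  refine ⟨(1 + 2 * M ^ 2) / μ ^ 2 + 2, by positivity, ?_⟩
  intro ρ ρ' τ G hρ' hρρ hτ hG w g hw hg hb A hA
  have hρ : 0 < ρ := hρ'.trans hρρ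
  classical
  -- the linear system
  let W : ℤ × ℤ → ℤ × ℤ → ℂ := fun k l => fco (fun z t => w z t * ee l.1 l.2 z t) k.1 k.2
  have hWe : ∀ (a : ℤ × ℤ → ℂ) (k : ℤ × ℤ), fco (fun z t => w z t * dz (tp A a) z t) k.1 k.2 =
      ∑ l ∈ A, (2 * Real.pi * I * l.1 * a l) * W k l := by
    intro a k
    rw [← fco_sum A (fun l => 2 * Real.pi * I * l.1 * a l) (fun l z t => w z t * ee l.1 l.2 z t)
      (fun l => SH.mul hw (ee_sh _ _ ρ)) hρ]
    congr 1
    funext z t
    rw [dz_tp, tp, Finset.mul_sum]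
    exact Finset.sum_congr rfl fun l _ => by ring
  have hfc : ∀ (g' : ℂ → ℝ → ℂ), SH g' ρ → ∀ (a : ℤ × ℤ → ℂ) (k : ℤ × ℤ),
      fco (fun z t => w z t * dz (tp A a) z t - g' z t) k.1 k.2 =
      ∑ l ∈ A, (2 * Real.pi * I * l.1 * a l) * W k l - fco g' k.1 k.2 := by
    intro g' hg' a k
    have h1 : SH (fun z t => w z t * dz (tp A a) z t) ρ := by
      have := SH.mul hw (tp_sh A (fun k => 2 * Real.pi * I * k.1 * a k) ρ)
      have e : (fun z t => w z t * dz (tp A a) z t) =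
          fun z t => w z t * tp A (fun k => 2 * Real.pi * I * k.1 * a k) z t := by
        funext z t
        rw [dz_tp]
      rw [e]
      exact this
    rw [fco_sub h1 hg' hρ, hWe]
  let L : (A → ℂ) →ₗ[ℂ] (A → ℂ) :=
    { toFun := fun a k => τ * (2 * Real.pi * I * (k.1.2 : ℂ)) * a k +
        ∑ l : A, (2 * Real.pi * I * (l.1.1 : ℂ) * a l) * W k.1 l.1
      map_add' := by
        intro a b
        funext k
        simp only [Pi.add_apply]
        rw [mul_add, add_add_add_comm, ← Finset.sum_add_distrib]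
        congr 1
        exact Finset.sum_congr rfl fun l _ => by ring
      map_smul' := by
        intro c a
        funext k
        simp only [Pi.smul_apply, smul_eq_mul, RingHom.id_apply]
        rw [mul_add, Finset.mul_sum]
        congr 1
        · ring
        · exact Finset.sum_congr rfl fun l _ => by ring }
  let ext : (A → ℂ) → (ℤ × ℤ → ℂ) := fun a k => if h : k ∈ A then a ⟨k, h⟩ else 0
  have hext : ∀ (a : A → ℂ) (k : A), ext a k.1 = a k := by
    intro a k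
    simp [ext]
  have hL : ∀ (a : A → ℂ) (k : A), L a k = τ * (2 * Real.pi * I * (k.1.2 : ℂ)) * ext a k.1 +
      ∑ l ∈ A, (2 * Real.pi * I * l.1 * ext a l) * W k.1 l := by
    intro a k
    rw [← Finset.sum_coe_sort A (fun l => (2 * Real.pi * I * l.1 * ext a l) * W k.1 l)]
    simp only [hext]
    rfl
  have hinj : Function.Injective L := by
    rw [injective_iff_map_eq_zero]
    intro a ha
    have h0 : SH (fun _ _ => (0:ℂ)) ρ := ⟨fun t _ => differentiableOn_const _, continuousOn_const,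
      fun _ _ _ _ => rfl⟩
    have hz : fco (fun _ _ => (0:ℂ)) = fun _ _ => 0 := by
      funext m n
      simp [fco]
    have hen := energy μ M ρ ρ' τ 0 hμ hM hρ' hρρ le_rfl w (fun _ _ => 0) hw h0
      (fun z hz t ht => ⟨(hb z hz t ht).1, (hb z hz t ht).2.1, by simp⟩) A (ext a) (by
        intro k hk
        have h1 := hL a ⟨k, hk⟩
        rw [ha] at h1
        simp only [Pi.zero_apply] at h1
        rw [hfc _ h0, hz, sub_zero]
        exact h1.symm)
    have hnn : ∀ k ∈ A, 0 ≤ Real.exp (4 * Real.pi * ρ' * |(k.1 : ℝ)|)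
        * (((k.1 : ℝ))^2 + τ^2 * ((k.2 : ℝ))^2) * ‖ext a k‖^2 := fun k _ => by positivity
    have hle : ∑ k ∈ A, Real.exp (4 * Real.pi * ρ' * |(k.1 : ℝ)|)
        * (((k.1 : ℝ))^2 + τ^2 * ((k.2 : ℝ))^2) * ‖ext a k‖^2 = 0 :=
      le_antisymm (by simpa using hen) (Finset.sum_nonneg hnn)
    rw [Finset.sum_eq_zero_iff_of_nonneg hnn] at hle
    funext k
    have h2 := hle k.1 k.2
    have h3 : (k.1.1 : ℝ) ≠ 0 := by exact_mod_cast hA k.1 k.2
    have h4 : 0 < Real.exp (4 * Real.pi * ρ' * |(k.1.1 : ℝ)|)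
        * (((k.1.1 : ℝ))^2 + τ^2 * ((k.1.2 : ℝ))^2) := by positivity
    have h5 : ‖ext a k.1‖ ^ 2 = 0 := by
      rcases mul_eq_zero.1 h2 with h | h
      · exact absurd h h4.ne'
      · exact h
    rw [hext] at h5
    simpa using h5
  obtain ⟨a, ha⟩ := (LinearMap.injective_iff_surjective.1 hinj) (fun k => fco g k.1.1 k.1.2)
  have hag : ∀ k ∈ A, τ * (2 * Real.pi * I * k.2) * ext a k
        + fco (fun z t => w z t * dz (tp A (ext a)) z t - g z t) k.1 k.2 = 0 := by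
    intro k hk
    have h1 := hL a ⟨k, hk⟩
    rw [ha] at h1
    rw [hfc g hg]
    simp only at h1
    linear_combination -h1
  exact ⟨ext a, hag, energy μ M ρ ρ' τ G hμ hM hρ' hρρ hG w g hw hg hb A (ext a) hag⟩

end Pool.Agent.Helper86.FT
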